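import Pool.Agent.H289Z.MU3

/-!
# A metrically universal separable group with left-invariant metric

There is a separable group with a left-invariant metric inducing a group topology that contains,
isometrically and as a subgroup, every separable group with a left-invariant metric inducing a
group topology. The group is the isometry group of the Urysohn space with the metric
`sup_n d(g x_n, h x_n) / L_n` for a dense sequence `x_n` and fast growing weights `L_n`.
-/

set_option autoImplicit false

universe u

namespace Pool.Agent.Results.MP_501377_al.AUniversal

theorem result : ∃ (G : Type) (_ : Group G) (_ : MetricSpace G),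
    IsTopologicalGroup G ∧ TopologicalSpace.SeparableSpace G ∧
    (∀ g a b : G, dist (g * a) (g * b) = dist a b) ∧
    ∀ (H : Type u) [Group H] [MetricSpace H] [IsTopologicalGroup H]
      [TopologicalSpace.SeparableSpace H], (∀ g a b : H, dist (g * a) (g * b) = dist a b) →
      ∃ φ : H →* G, Function.Injective φ ∧ ∀ a b : H, dist (φ a) (φ b) = dist a b :=
  Pool.Agent.H289Z.MU.main

end Pool.Agent.Results.MP_501377_al.AUniversal
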